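import Mathlib
import Pool.Agent.H50.G.S.Helper112.Arith
import Pool.Agent.H50.G.S.Helper112.TypeII
/-! Arithmetic bounds for the Bombieri-Vinogradov module. -/

open Finset

namespace Pool.Agent.H398R2.BV

open Pool.Agent.Helper112

theorem hyperC {M : Type*} [AddCommMonoid M] (x : ℕ) (g : ℕ → ℕ → M) :
    ∑ n ∈ Icc 1 x, ∑ i ∈ n.divisorsAntidiagonal, g i.1 i.2 =
      ∑ c ∈ Icc 1 x, ∑ b ∈ Icc 1 (x / c), g b c := by
  rw [sum_sigma', sum_sigma']
  apply sum_nbij' (fun p => (⟨p.2.2, p.2.1⟩ : (_ : ℕ) × ℕ))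
    (fun q => (⟨q.2 * q.1, (q.2, q.1)⟩ : (_ : ℕ) × (ℕ × ℕ)))
  · rintro ⟨n, b, c⟩ hp
    simp only [mem_sigma, mem_Icc, Nat.mem_divisorsAntidiagonal] at hp ⊢
    obtain ⟨⟨h1, h2⟩, h3, h4⟩ := hp
    have hb : 0 < b := Nat.pos_of_ne_zero (by rintro rfl; simp at h3; omega)
    have hc : 0 < c := Nat.pos_of_ne_zero (by rintro rfl; simp at h3; omega)
    refine ⟨⟨hc, ?_⟩, hb, ?_⟩
    · have : c ≤ b * c := Nat.le_mul_of_pos_left c hb
      omega
    · rw [Nat.le_div_iff_mul_le hc]; omega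
  · rintro ⟨c, b⟩ hp
    simp only [mem_sigma, mem_Icc, Nat.mem_divisorsAntidiagonal] at hp ⊢
    obtain ⟨⟨h1, h2⟩, h3, h4⟩ := hp
    rw [Nat.le_div_iff_mul_le h1] at h4
    have : 0 < b * c := Nat.mul_pos h3 h1
    exact ⟨⟨this, h4⟩, trivial, this.ne'⟩
  · rintro ⟨n, b, c⟩ hp
    simp only [mem_sigma, mem_Icc, Nat.mem_divisorsAntidiagonal] at hp ⊢
    obtain ⟨⟨h1, h2⟩, h3, h4⟩ := hp
    subst h3
    rfl
  · rintro ⟨c, b⟩ hp
    rfl
  · rintro ⟨n, b, c⟩ hp
    rfl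

theorem card_div_mul_le (a b : ℕ) : (a * b).divisors.card ≤ a.divisors.card * b.divisors.card := by
  rw [Nat.divisors_mul]
  exact card_mul_le

theorem harm_le' (Y : ℕ) : ∑ k ∈ Icc 1 Y, (1 / (k:ℝ)) ≤ 1 + Real.log Y := by
  rcases Nat.eq_zero_or_pos Y with h | h
  · subst h; simp
  · exact harm_le Y h

theorem sum_card_div (Y : ℕ) : ∑ n ∈ Icc 1 Y, (n.divisors.card : ℝ) ≤ Y * (1 + Real.log Y) := by
  have h1 : ∑ n ∈ Icc 1 Y, (n.divisors.card : ℝ) = ∑ c ∈ Icc 1 Y, ((Y / c : ℕ) : ℝ) := by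
    have := hyperC Y (fun _ _ => (1 : ℝ))
    simp only [sum_const, nsmul_eq_mul, mul_one, Nat.card_Icc, add_tsub_cancel_right] at this
    rw [← this]
    apply sum_congr rfl
    intro n _
    rw [← Nat.map_div_right_divisors, card_map]
  rw [h1]
  calc ∑ c ∈ Icc 1 Y, ((Y / c : ℕ) : ℝ) ≤ ∑ c ∈ Icc 1 Y, (Y : ℝ) * (1 / (c:ℝ)) := by
        apply sum_le_sum
        intro c _
        have := Nat.cast_div_le (α := ℝ) (m := Y) (n := c)
        rw [mul_one_div]
        exact this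
    _ = Y * ∑ c ∈ Icc 1 Y, (1 / (c:ℝ)) := by rw [mul_sum]
    _ ≤ _ := mul_le_mul_of_nonneg_left (harm_le' Y) (by positivity)

theorem sum_card_div_div (Y : ℕ) :
    ∑ n ∈ Icc 1 Y, (n.divisors.card : ℝ) / n ≤ (1 + Real.log Y) ^ 2 := by
  have hl : 0 ≤ 1 + Real.log Y := by
    have := Real.log_natCast_nonneg Y
    linarith
  have h1 : ∑ n ∈ Icc 1 Y, (n.divisors.card : ℝ) / n =
      ∑ c ∈ Icc 1 Y, ∑ b ∈ Icc 1 (Y / c), (1 / (b:ℝ)) * (1 / (c:ℝ)) := by
    rw [← hyperC Y (fun b c => (1 / (b:ℝ)) * (1 / (c:ℝ)))]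
    apply sum_congr rfl
    intro n hn
    rw [mem_Icc] at hn
    have : ∀ i ∈ n.divisorsAntidiagonal, (1 / (i.1:ℝ)) * (1 / (i.2:ℝ)) = 1 / n := by
      intro i hi
      rw [Nat.mem_divisorsAntidiagonal] at hi
      rw [← hi.1]
      push_cast
      rw [one_div_mul_one_div]
    rw [sum_congr rfl this, sum_const, nsmul_eq_mul]
    rw [← Nat.map_div_right_divisors, card_map]
    ring
  rw [h1]
  calc ∑ c ∈ Icc 1 Y, ∑ b ∈ Icc 1 (Y / c), (1 / (b:ℝ)) * (1 / (c:ℝ))
      ≤ ∑ c ∈ Icc 1 Y, (1 + Real.log Y) * (1 / (c:ℝ)) := by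
        apply sum_le_sum
        intro c _
        rw [← sum_mul]
        apply mul_le_mul_of_nonneg_right _ (by positivity)
        refine le_trans ?_ (harm_le' Y)
        apply sum_le_sum_of_subset_of_nonneg
        · exact Icc_subset_Icc_right (Nat.div_le_self _ _)
        · intro i _ _; positivity
    _ = (1 + Real.log Y) * ∑ c ∈ Icc 1 Y, (1 / (c:ℝ)) := by rw [mul_sum]
    _ ≤ (1 + Real.log Y) * (1 + Real.log Y) := mul_le_mul_of_nonneg_left (harm_le' Y) hl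
    _ = _ := by ring

theorem sum_card_div_sq (Y : ℕ) :
    ∑ n ∈ Icc 1 Y, (n.divisors.card : ℝ) ^ 2 ≤ Y * (1 + Real.log Y) ^ 3 := by
  have hl : 0 ≤ 1 + Real.log Y := by
    have := Real.log_natCast_nonneg Y
    linarith
  have h1 : ∑ n ∈ Icc 1 Y, (n.divisors.card : ℝ) ^ 2 ≤
      ∑ c ∈ Icc 1 Y, ∑ b ∈ Icc 1 (Y / c), (b.divisors.card : ℝ) * (c.divisors.card : ℝ) := by
    rw [← hyperC Y (fun b c => (b.divisors.card : ℝ) * (c.divisors.card : ℝ))]
    apply sum_le_sum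
    intro n hn
    rw [mem_Icc] at hn
    have : ∀ i ∈ n.divisorsAntidiagonal,
        (n.divisors.card : ℝ) ≤ (i.1.divisors.card : ℝ) * (i.2.divisors.card : ℝ) := by
      intro i hi
      rw [Nat.mem_divisorsAntidiagonal] at hi
      rw [← hi.1]
      exact_mod_cast card_div_mul_le i.1 i.2
    calc (n.divisors.card : ℝ) ^ 2 = ∑ i ∈ n.divisorsAntidiagonal, (n.divisors.card : ℝ) := by
          rw [sum_const, nsmul_eq_mul, ← Nat.map_div_right_divisors, card_map]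
          ring
      _ ≤ _ := sum_le_sum this
  refine h1.trans ?_
  calc ∑ c ∈ Icc 1 Y, ∑ b ∈ Icc 1 (Y / c), (b.divisors.card : ℝ) * (c.divisors.card : ℝ)
      ≤ ∑ c ∈ Icc 1 Y, (Y * (1 + Real.log Y)) * ((c.divisors.card : ℝ) / c) := by
        apply sum_le_sum
        intro c hc
        rw [mem_Icc] at hc
        rw [← sum_mul]
        have hc0 : (0:ℝ) < c := by
          have : 0 < c := by omega
          exact_mod_cast this
        have h2 := sum_card_div (Y / c)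
        have h3 : ((Y / c : ℕ) : ℝ) ≤ Y / c := Nat.cast_div_le
        have h4 : Real.log ((Y / c : ℕ) : ℝ) ≤ Real.log Y := by
          rcases Nat.eq_zero_or_pos (Y / c) with h | h
          · rw [h]; simp; exact Real.log_natCast_nonneg _
          · apply Real.log_le_log (by exact_mod_cast h)
            exact_mod_cast Nat.div_le_self _ _
        have h5 : ((Y / c : ℕ) : ℝ) * (1 + Real.log ((Y / c : ℕ) : ℝ)) ≤
            (Y / c) * (1 + Real.log Y) := by
          apply mul_le_mul h3 (by linarith) _ (by positivity)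
          have := Real.log_natCast_nonneg (Y / c)
          linarith
        calc (∑ b ∈ Icc 1 (Y / c), (b.divisors.card : ℝ)) * (c.divisors.card : ℝ)
            ≤ ((Y / c) * (1 + Real.log Y)) * (c.divisors.card : ℝ) :=
              mul_le_mul_of_nonneg_right (h2.trans h5) (by positivity)
          _ = _ := by field_simp
    _ = (Y * (1 + Real.log Y)) * ∑ c ∈ Icc 1 Y, ((c.divisors.card : ℝ) / c) := by rw [mul_sum]
    _ ≤ (Y * (1 + Real.log Y)) * (1 + Real.log Y) ^ 2 :=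
        mul_le_mul_of_nonneg_left (sum_card_div_div Y) (by positivity)
    _ = _ := by ring

theorem sum_betaV_sq (V Y : ℕ) :
    ∑ b ∈ Icc 1 Y, betaV V b ^ 2 ≤ Y * (1 + Real.log Y) ^ 3 := by
  refine le_trans ?_ (sum_card_div_sq Y)
  apply sum_le_sum
  intro b _
  rw [← sq_abs]
  exact pow_le_pow_left₀ (abs_nonneg _) (TII.betaV_abs V b) 2

theorem sum_L2_sq (U Y : ℕ) :
    ∑ c ∈ Icc 1 Y, TII.L2 U c ^ 2 ≤ Y * (Real.log Y) ^ 2 := by
  calc ∑ c ∈ Icc 1 Y, TII.L2 U c ^ 2 ≤ ∑ c ∈ Icc 1 Y, (Real.log Y) ^ 2 := by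
        apply sum_le_sum
        intro c hc
        rw [mem_Icc] at hc
        apply pow_le_pow_left₀ (TII.L2_nonneg U c)
        refine (TII.L2_le U c).trans (ArithmeticFunction.vonMangoldt_le_log.trans ?_)
        apply Real.log_le_log (by exact_mod_cast hc.1)
        exact_mod_cast hc.2
    _ = _ := by simp

theorem two_pow_omega_le (n : ℕ) (hn : n ≠ 0) : 2 ^ n.primeFactors.card ≤ n.divisors.card := by
  rw [Nat.card_divisors hn, ← prod_const]
  apply prod_le_prod'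
  intro p hp
  have := (Nat.mem_primeFactors.mp hp)
  have h := this.1.factorization_pos_of_dvd hn this.2.1
  omega

theorem pow_omega_le (c : ℝ) (hc : 1 ≤ c) (η : ℝ) (hη : 0 < η) :
    ∃ C : ℝ, 0 < C ∧ ∀ f : ℕ, 1 ≤ f → c ^ f.primeFactors.card ≤ C * (f:ℝ) ^ η := by
  obtain ⟨k, hk⟩ := pow_unbounded_of_one_lt c (show (1:ℝ) < 2 by norm_num)
  have hk1 : (0:ℝ) < (k:ℝ) + 1 := by positivity
  obtain ⟨C, hC, hd⟩ := divisor_bound (η / (k + 1)) (by positivity)
  refine ⟨C ^ (k + 1), by positivity, ?_⟩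
  intro f hf
  have h1 : c ≤ 2 ^ (k + 1) := by
    rw [pow_succ]
    have : (0:ℝ) < 2 ^ k := by positivity
    linarith
  have hf0 : (0:ℝ) < f := by exact_mod_cast hf
  calc c ^ f.primeFactors.card ≤ ((2:ℝ) ^ (k + 1)) ^ f.primeFactors.card :=
        pow_le_pow_left₀ (by linarith) h1 _
    _ = ((2:ℝ) ^ f.primeFactors.card) ^ (k + 1) := by
        rw [← pow_mul, ← pow_mul, mul_comm]
    _ ≤ (f.divisors.card : ℝ) ^ (k + 1) := by
        apply pow_le_pow_left₀ (by positivity)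
        exact_mod_cast two_pow_omega_le f (by omega)
    _ ≤ (C * (f:ℝ) ^ (η / (k + 1))) ^ (k + 1) := by
        apply pow_le_pow_left₀ (by positivity)
        exact hd f hf
    _ = _ := by
        rw [mul_pow, ← Real.rpow_natCast ((f:ℝ) ^ (η / (k + 1))), ← Real.rpow_mul hf0.le]
        congr 2
        push_cast
        field_simp

end Pool.Agent.H398R2.BV
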