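import Mathlib
import Pool.Agent.H50.G.S.H398R2.BV3
/-! Type II sums over a block of moduli. -/

open Finset

namespace Pool.Agent.H398R2.BV

open Pool.Agent.Helper112 Pool.Agent.Helper112.TI Pool.Agent.Helper112.TII
open Pool.Agent.Helper112.BLB

theorem log_natCast_le (k : ℕ) (X : ℝ) (hX : 1 ≤ X) (hk : (k : ℝ) ≤ X) :
    Real.log k ≤ Real.log X := by
  rcases Nat.eq_zero_or_pos k with h | h
  · subst h; simpa using Real.log_nonneg hX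
  · exact Real.log_le_log (by exact_mod_cast h) hk

theorem block_pointwise (X : ℝ) (hX : 1 ≤ X) (U V F0 F1 : ℕ) (hU : 1 ≤ U) (hV : 1 ≤ V)
    (h0 : 1 ≤ F0) (h1 : 1 ≤ F1) (t : ℝ) (ht1 : 1 ≤ t) (ht2 : t ≤ X) :
    ∑ f ∈ Icc F0 F1, (1 / (Nat.totient f : ℝ)) * P ⌊t⌋₊ ⌊X / t⌋₊ (betaV V) (L2 U) f ≤
      12 * (1 + Real.log F1) * (Real.sqrt X / F0 + (Real.sqrt (X / U) + Real.sqrt (X / V)) + F1) *
        (Real.sqrt X * (1 + Real.log X) ^ 3) := by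
  have hL : 0 ≤ Real.log X := Real.log_nonneg hX
  have hlogF : 0 ≤ Real.log F1 := Real.log_natCast_nonneg F1
  have ht0 : 0 < t := by linarith
  have hXt : 1 ≤ X / t := by rw [le_div_iff₀ ht0]; linarith
  have hU0 : (0:ℝ) < U := by exact_mod_cast hU
  have hV0 : (0:ℝ) < V := by exact_mod_cast hV
  refine (step45 ⌊t⌋₊ ⌊X / t⌋₊ (betaV V) (L2 U) F0 F1 h0 h1).trans ?_
  have hRHS : 0 ≤ 12 * (1 + Real.log F1) *
      (Real.sqrt X / F0 + (Real.sqrt (X / U) + Real.sqrt (X / V)) + F1) *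
        (Real.sqrt X * (1 + Real.log X) ^ 3) := by positivity
  rcases Nat.lt_or_ge V ⌊t⌋₊ with hVt | hVt
  swap
  · have : ∑ b ∈ Icc 1 ⌊t⌋₊, betaV V b ^ 2 = 0 := by
      apply sum_eq_zero
      intro b hb
      rw [mem_Icc] at hb
      rw [betaV_zero V b (hb.2.trans hVt)]
      simp
    rw [this]
    simpa using hRHS
  rcases Nat.lt_or_ge U ⌊X / t⌋₊ with hUt | hUt
  swap
  · have : ∑ c ∈ Icc 1 ⌊X / t⌋₊, L2 U c ^ 2 = 0 := by
      apply sum_eq_zero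
      intro c hc
      rw [mem_Icc] at hc
      have : L2 U c = 0 := by
        unfold L2
        rw [if_neg (by omega)]
      rw [this]
      simp
    rw [this]
    simpa using hRHS
  have hx1 : (⌊t⌋₊ : ℝ) ≤ t := Nat.floor_le (by linarith)
  have hy1 : (⌊X / t⌋₊ : ℝ) ≤ X / t := Nat.floor_le (by linarith)
  have hVr : (V : ℝ) ≤ ⌊t⌋₊ := by exact_mod_cast hVt.le
  have hUr : (U : ℝ) ≤ ⌊X / t⌋₊ := by exact_mod_cast hUt.le
  have hVt' : (V : ℝ) ≤ t := hVr.trans hx1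
  have hUt' : (U : ℝ) ≤ X / t := hUr.trans hy1
  have hy2 : (⌊X / t⌋₊ : ℝ) ≤ X / V := by
    refine hy1.trans ?_
    exact div_le_div_of_nonneg_left (by linarith) hV0 hVt'
  have hx2 : (⌊t⌋₊ : ℝ) ≤ X / U := by
    refine hx1.trans ?_
    rw [le_div_iff₀ hU0]
    rw [le_div_iff₀ ht0] at hUt'
    linarith
  have hxy : (⌊t⌋₊ : ℝ) * (⌊X / t⌋₊ : ℝ) ≤ X := by
    calc (⌊t⌋₊ : ℝ) * (⌊X / t⌋₊ : ℝ) ≤ t * (X / t) :=
          mul_le_mul hx1 hy1 (by positivity) (by linarith)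
      _ = X := by field_simp
  have hx3 : (⌊t⌋₊ : ℝ) ≤ X := hx1.trans ht2
  have hy3 : (⌊X / t⌋₊ : ℝ) ≤ X := hy1.trans (div_le_self (by linarith) ht1)
  have s1 : Real.sqrt (∑ b ∈ Icc 1 ⌊t⌋₊, betaV V b ^ 2) ≤
      Real.sqrt ⌊t⌋₊ * (1 + Real.log X) ^ 2 := by
    rw [Real.sqrt_le_left (by positivity)]
    refine (sum_betaV_sq V ⌊t⌋₊).trans ?_
    rw [mul_pow, Real.sq_sqrt (by positivity)]
    apply mul_le_mul_of_nonneg_left _ (by positivity)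
    have h2 := log_natCast_le ⌊t⌋₊ X hX hx3
    have h3 := Real.log_natCast_nonneg ⌊t⌋₊
    calc (1 + Real.log ⌊t⌋₊) ^ 3 ≤ (1 + Real.log X) ^ 3 :=
          pow_le_pow_left₀ (by linarith) (by linarith) 3
      _ ≤ (1 + Real.log X) ^ 4 := pow_le_pow_right₀ (by linarith) (by norm_num)
      _ = ((1 + Real.log X) ^ 2) ^ 2 := by ring
  have s2 : Real.sqrt (∑ c ∈ Icc 1 ⌊X / t⌋₊, L2 U c ^ 2) ≤
      Real.sqrt ⌊X / t⌋₊ * (1 + Real.log X) := by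
    rw [Real.sqrt_le_left (by positivity)]
    refine (sum_L2_sq U ⌊X / t⌋₊).trans ?_
    rw [mul_pow, Real.sq_sqrt (by positivity)]
    apply mul_le_mul_of_nonneg_left _ (by positivity)
    have h2 := log_natCast_le ⌊X / t⌋₊ X hX hy3
    have h3 := Real.log_natCast_nonneg ⌊X / t⌋₊
    exact pow_le_pow_left₀ h3 (by linarith) 2
  have s3 : Real.sqrt (∑ b ∈ Icc 1 ⌊t⌋₊, betaV V b ^ 2) *
      Real.sqrt (∑ c ∈ Icc 1 ⌊X / t⌋₊, L2 U c ^ 2) ≤ Real.sqrt X * (1 + Real.log X) ^ 3 := by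
    refine (mul_le_mul s1 s2 (Real.sqrt_nonneg _) (by positivity)).trans ?_
    calc Real.sqrt ⌊t⌋₊ * (1 + Real.log X) ^ 2 * (Real.sqrt ⌊X / t⌋₊ * (1 + Real.log X)) =
        (Real.sqrt ⌊t⌋₊ * Real.sqrt ⌊X / t⌋₊) * (1 + Real.log X) ^ 3 := by ring
      _ = Real.sqrt ((⌊t⌋₊ : ℝ) * (⌊X / t⌋₊ : ℝ)) * (1 + Real.log X) ^ 3 := by
          rw [Real.sqrt_mul (by positivity)]
      _ ≤ _ := by
          apply mul_le_mul_of_nonneg_right _ (by positivity)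
          exact Real.sqrt_le_sqrt hxy
  have s4 : Real.sqrt ((⌊t⌋₊ : ℝ) * (⌊X / t⌋₊ : ℝ)) ≤ Real.sqrt X := Real.sqrt_le_sqrt hxy
  have s5 : Real.sqrt ⌊t⌋₊ ≤ Real.sqrt (X / U) := Real.sqrt_le_sqrt hx2
  have s6 : Real.sqrt ⌊X / t⌋₊ ≤ Real.sqrt (X / V) := Real.sqrt_le_sqrt hy2
  gcongr

open Classical in
/-- Type II bound over a block of moduli. -/
theorem typeII_block (X : ℝ) (hX : 1 ≤ X) (U V F0 F1 : ℕ) (hU : 1 ≤ U) (hV : 1 ≤ V)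
    (h0 : 1 ≤ F0) (h1 : 1 ≤ F1) :
    ∑ f ∈ Icc F0 F1, (1 / (Nat.totient f : ℝ)) *
      ∑ ψ ∈ (univ : Finset (DirichletCharacter ℂ f)).filter (fun ψ => ψ.IsPrimitive),
      ‖TL X f ψ (LamII U V)‖ ≤
      12 * (1 + Real.log F1) * (Real.sqrt X / F0 + (Real.sqrt (X / U) + Real.sqrt (X / V)) + F1) *
        (Real.sqrt X * (1 + Real.log X) ^ 3) * Real.log X :=
  sum_TL_le X hX (Icc F0 F1) (fun f => 1 / (Nat.totient f : ℝ)) (fun f => by positivity)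
    (betaV V) (L2 U) _ (fun t ht1 ht2 => block_pointwise X hX U V F0 F1 hU hV h0 h1 t ht1 ht2)

end Pool.Agent.H398R2.BV
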